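import Pool.Agent.W295.NL.Stm

set_option autoImplicit false

namespace Pool.Agent.W847.NL.PR

open Pool.Agent.W295.NL

lemma central_iter {Q : Type} {L : Q → Q → Q} {z : Q → Q} (hz : Central L z) :
    ∀ k : ℕ, Central L (z^[k]) := by
  intro k
  induction k with
  | zero => intro u v; exact ⟨rfl, rfl⟩
  | succ k ih =>
    intro u v
    rw [Function.iterate_succ_apply', Function.iterate_succ_apply', Function.iterate_succ_apply']
    exact ⟨by rw [(hz _ _).1, (ih u v).1], by rw [(hz _ _).2, (ih u v).2]⟩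

theorem main : S_PR := by
  intro Q _ L hL Q' L' φ hL' hφ z hz hne hx
  obtain ⟨x0, hx0⟩ := hx
  have ha : ∀ y, φ (z y) = φ y := by
    intro y
    obtain ⟨v, rfl⟩ := (hL.1 x0).2 y
    rw [← (hz x0 v).1, hφ, hφ, hx0]
  have hinj : Function.Injective z := by
    intro a b hab
    obtain ⟨v1, rfl⟩ := (hL.1 x0).2 a
    obtain ⟨v2, rfl⟩ := (hL.1 x0).2 b
    rw [← (hz x0 v1).1, ← (hz x0 v2).1] at hab
    rw [(hL.1 (z x0)).1 hab]
  have hbij : Function.Bijective z := ⟨hinj, Finite.injective_iff_surjective.mp hinj⟩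
  obtain ⟨σ, hσ⟩ : ∃ σ : Equiv.Perm Q, (σ : Q → Q) = z := ⟨Equiv.ofBijective z hbij, rfl⟩
  have hpow : ∀ k : ℕ, z^[k] = ((σ ^ k : Equiv.Perm Q) : Q → Q) := by
    intro k
    rw [← hσ]
    exact Equiv.Perm.iterate_eq_pow σ k
  have hN0 : 0 < orderOf σ := orderOf_pos σ
  have hN1 : orderOf σ ≠ 1 := by
    intro h
    rw [orderOf_eq_one_iff] at h
    apply hne
    rw [← hσ, h]
    rfl
  obtain ⟨p, hp, hpd⟩ := Nat.exists_prime_and_dvd hN1
  refine ⟨p, z^[orderOf σ / p], hp, central_iter hz _, ?_, ?_, ?_⟩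
  · intro h
    have h1 : σ ^ (orderOf σ / p) = 1 := by
      apply Equiv.coe_fn_injective
      show ((σ ^ (orderOf σ / p) : Equiv.Perm Q) : Q → Q) = _
      rw [← hpow, h]
      rfl
    have h2 := Nat.le_of_dvd (Nat.div_pos (Nat.le_of_dvd hN0 hpd) hp.pos)
      (orderOf_dvd_of_pow_eq_one h1)
    have h3 := Nat.div_lt_self hN0 hp.one_lt
    omega
  · rw [← Function.iterate_mul, Nat.div_mul_cancel hpd, hpow, pow_orderOf_eq_one]
    rfl
  · have h1 : ∀ (k : ℕ) (x : Q), φ (z^[k] x) = φ x := by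
      intro k
      induction k with
      | zero => intro x; rfl
      | succ k ih =>
        intro x
        rw [Function.iterate_succ_apply', ha, ih]
    exact h1 _

end Pool.Agent.W847.NL.PR
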